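import Pool.Agent.H.MP_9ac7bc_an.E

open MeasureTheory Filter Topology Real
open Pool.Agent.H.MP_636246_an Pool.Agent.H.MP_9ac7bc_an

namespace Pool.Agent.Results.MP_9ac7bc_an.No

/-- The normalised Birkhoff sum. -/
noncomputable def Z (f : ℂ × ℂ → ℂ × ℂ) (μ : Measure (ℂ × ℂ)) (g : ℂ × ℂ → ℝ) (n : ℕ)
    (x : ℂ × ℂ) : ℝ := (birkhoffSum f g n x - n * ∫ y, g y ∂μ) / √n

theorem result : ∃ (p : Polynomial ℂ) (a : ℂ) (φ g : ℂ × ℂ → ℝ) (C D : NNReal)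
    (μ : Measure (ℂ × ℂ)), 2 ≤ p.natDegree ∧ a ≠ 0 ∧ LipschitzWith C φ ∧
    pr (hen p a) φ = (0 : ℝ) ∧ IsEq (hen p a) φ μ ∧ (∀ ν, IsEq (hen p a) φ ν → ν = μ) ∧
    HolderWith D 4⁻¹ g ∧ ¬∃ σ : ℝ, 0 ≤ σ ∧
      (0 < σ → ∀ I : Set ℝ, I.OrdConnected →
        Tendsto (fun n => μ.real {x | Z (hen p a) μ g n x ∈ I}) atTop
          (𝓝 ((√(2 * π * σ ^ 2))⁻¹ * ∫ t in I, exp (-t ^ 2 / (2 * σ ^ 2))))) ∧
      (σ = 0 → ∀ δ > 0,
        Tendsto (fun n => μ.real {x | Z (hen p a) μ g n x ∈ Set.Ioo (-δ) δ}) atTop (𝓝 1)) := by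
  obtain ⟨φ, g, C, D, μ, h1, h2, h3, h4, h5, h6, -, h8⟩ := main (f := ff)
    (by unfold ff; fun_prop) (fun _ => bdd) siegel.1 siegel.2.1 siegel.2.2
  have e : hen (.X ^ 2 + .C (lam + 2⁻¹) * .X) (lam * 2⁻¹) = ff := by ext z <;> simp [ff, hen]
  refine ⟨.X ^ 2 + .C (lam + 2⁻¹) * .X, lam * 2⁻¹, φ, g, C, D, μ,
    (Eq.symm (by compute_degree!)).le, mul_ne_zero (Complex.exp_ne_zero _) (by norm_num), h1, ?_⟩
  rw [e]
  refine ⟨h2, h3, h4, h5, fun ⟨σ, s0, s1, s2⟩ => ?_⟩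
  have := h3.1.1
  obtain ⟨c, c0, hc⟩ : ∃ c > 0,
      Tendsto (fun n => μ.real {x | Z ff μ g n x ∈ Set.Ioo (-1) 1}) atTop (𝓝 c) := by
    rcases s0.eq_or_lt with s | s
    · exact ⟨1, one_pos, s2 s.symm 1 one_pos⟩
    · have : NeZero (volume.restrict (Set.Ioo (-1 : ℝ) 1)) := ⟨by simp⟩
      exact ⟨_, mul_pos (by positivity) (integral_exp_pos ((Continuous.integrableOn_Icc
        (by fun_prop)).mono_set Set.Ioo_subset_Icc_self)), s1 s _ Set.ordConnected_Ioo⟩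
  obtain ⟨n, a, b, n0⟩ := ((h8 _ (half_pos c0)).and_eventually ((hc.eventually
    (lt_mem_nhds (half_lt_self c0))).and (eventually_gt_atTop 0))).exists
  refine (b.trans_le (measureReal_mono fun x hx => ?_)).not_ge a
  have hx := abs_lt.2 hx
  have : 0 < √n := sqrt_pos.2 (by exact_mod_cast n0)
  rwa [Z, h6, mul_zero, sub_zero, abs_div, abs_of_pos this, div_lt_one this] at hx

end Pool.Agent.Results.MP_9ac7bc_an.No
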